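import Pool.Agent.Q72.DP.Surf

/-!
# Bloch's conjecture for a surface and squares of divisors on ruled threefolds

`𝒱` is the class of smooth projective complex varieties (or any class of smooth proper varieties over
a field `k` closed under products), `C` the Chow groups with rational coefficients (in the form of
their formal properties, `IsChowProj`), `H` a Weil cohomology theory (`IsWeilProj`; for the problem:
Betti cohomology), and `N X j ⊆ CH^j(X)` the kernel of the Abel-Jacobi map on the homologically
trivial classes (`IsAbelJacobiKernel`). For a surface `S` the group `N S 2` is the kernel of the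
Albanese map on zero-cycles of degree zero, with rational coefficients; by the theorem of Roitman,
for `p_g(S) = 0` the group of zero-cycles `B(S)` is finite-dimensional (`d(S) = 0`) if and only if
`N S 2 = 0`. `Bun f m c ξ` means that `f` is the projective bundle of a vector bundle of rank `m` with
Chern classes `c`, and `ξ` is the class of `O(1)`; the hypothesis `RankTwoBundles` consists of the
projective bundle formula and the known theorem of Schwarzenberger on rank two bundles on surfaces
(Serre's construction).

Theorem. For every surface `S` (for instance with `p_g = 0`) the following are equivalent: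
* `N S 2 = 0`;
* every vector bundle of rank two on `S` with `c₁ = 0` and `c₂` in the Albanese kernel has `c₂ = 0`;
* for every threefold `P` which is a `ℙ¹`-bundle over `S` and every divisor `G` on `P`: if `G²` is in
  the kernel of the Abel-Jacobi map of `P` then `G² = 0` in `CH²(P)`.
-/

open CategoryTheory AlgebraicGeometry

set_option autoImplicit false

universe u v w

namespace Pool.Agent.Results.MP_7ebcb6_ag.SquaresOnRuledThreefolds

open Pool.Agent.H914 Pool.Agent.W492.BB Pool.Agent.TH133 Pool.Agent.Y148.BB Pool.Agent.Q72.DP

/-- The Albanese kernel of the surface `S` vanishes (with rational coefficients) if and only if, on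
the threefolds which are `ℙ¹`-bundles over `S`, the squares of divisors in the kernel of the
Abel-Jacobi map vanish. -/
theorem result {k : Type u} [Field k] {𝒱 : VarClass k} (C : TheoryData.{u, v, 0} 𝒱 ℚ)
    [IsChowProj C] {K : Type w} [Field K] (H : WeilTheoryData.{u, v, w} C K) [IsWeilProj H]
    (N : ∀ X : 𝒱.Obj, ℕ → Submodule ℚ (C.A X)) (hN : IsAbelJacobiKernel H N)
    (Bun : BundleClass C) (hB : RankTwoBundles Bun) (S : 𝒱.Obj) (hS : S.dim = 2) :
    [N S 2 = ⊥, RankTwoTrivial Bun S (N S 2), SquaresTrivial Bun S (fun P => N P 2)].TFAE :=
  bloch_tfae hB hN hS

end Pool.Agent.Results.MP_7ebcb6_ag.SquaresOnRuledThreefolds
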